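import Mathlib

/-! # QH-E: elementary logarithmic estimate -/

set_option autoImplicit false

namespace Pool.Agent.Helper50.QH

open scoped BigOperators RealInnerProductSpace

theorem log_aux {z : ℝ} (hz : z < 1) : Real.log (1 - z) ≤ -z - z ^ 2 / (2 * (1 + |z|)) := by
  rcases le_total z 0 with h | h
  · rw [abs_of_nonpos h]
    have hx : (0 : ℝ) < 1 - z := by linarith
    have h1 : 0 ≤ Real.log (1 - z) := Real.log_nonneg (by linarith)
    have h2 := Real.self_le_sinh_iff.2 h1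
    rw [Real.sinh_log hx] at h2
    refine h2.trans (le_of_eq ?_)
    have h3 : (1 - z) ≠ 0 := hx.ne'
    have h4 : 1 + -z ≠ 0 := by intro h; apply h3; linarith
    field_simp
    ring
  · rw [abs_of_nonneg h]
    have h1 := Real.hasSum_pow_div_log_of_abs_lt_one (x := z) (by rw [abs_of_nonneg h]; exact hz)
    have h2 := sum_le_hasSum (Finset.range 2) (fun n _ => by positivity) h1
    simp [Finset.sum_range_succ] at h2
    have h3 : z ^ 2 / (2 * (1 + z)) ≤ z ^ 2 / 2 := by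
      apply div_le_div_of_nonneg_left (sq_nonneg z) (by norm_num)
      linarith
    norm_num at h2
    linarith

theorem log_num : (3 / 5 : ℝ) ≤ Real.log (28 / 15) := by
  have h1 : Real.exp 1 < 2.7182818286 := Real.exp_one_lt_d9
  have h2 : Real.exp 3 < (28 / 15 : ℝ) ^ 5 := by
    have e : Real.exp 3 = Real.exp 1 ^ 3 := by
      rw [← Real.exp_nat_mul]
      norm_num
    rw [e]
    calc Real.exp 1 ^ 3 < 2.7182818286 ^ 3 :=
        pow_lt_pow_left₀ h1 (Real.exp_pos 1).le (by norm_num)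
      _ < (28 / 15 : ℝ) ^ 5 := by norm_num
  have h3 : 3 < Real.log ((28 / 15 : ℝ) ^ 5) := by
    rw [Real.lt_log_iff_exp_lt (by positivity)]
    exact h2
  rw [Real.log_pow] at h3
  push_cast at h3
  linarith

theorem final_num {R : ℝ} (hR : 0 ≤ R) :
    1 - R ^ 2 / (2 * (1 + R)) + Real.log (1 + R) ≤ Real.log (14 / 3) := by
  have hy : 0 < 1 + R := by linarith
  have h1 : Real.log (1 + R) = Real.log (5 / 2) + Real.log ((1 + R) / (5 / 2)) := by
    rw [← Real.log_mul (by norm_num) (by positivity)]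
    congr 1
    field_simp
  have h2 : Real.log ((1 + R) / (5 / 2)) ≤ (1 + R) / (5 / 2) - 1 :=
    Real.log_le_sub_one_of_pos (by positivity)
  have h3 : Real.log (14 / 3) = Real.log (5 / 2) + Real.log (28 / 15) := by
    rw [← Real.log_mul (by norm_num) (by norm_num)]
    norm_num
  have h4 := log_num
  have h5 : R ^ 2 / (2 * (1 + R)) = (1 + R) / 2 - 1 + 1 / (2 * (1 + R)) := by
    field_simp
    ring
  have h6 : 2 / 5 ≤ (1 + R) / 10 + 1 / (2 * (1 + R)) := by
    rw [← sub_nonneg]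
    have : (1 + R) / 10 + 1 / (2 * (1 + R)) - 2 / 5 =
        ((1 + R - 2) ^ 2 + 1) / (10 * (1 + R)) := by
      field_simp
      ring
    rw [this]
    positivity
  rw [h1, h3, h5]
  linarith

/-- QH-E (the logarithmic estimate). `g` is the centred family with one member `j` replaced by `p`. -/
theorem log_bound {d : ℕ} {I : Type} [Fintype I] (u : I → EuclideanSpace ℝ (Fin d)) (c : I → ℝ)
    (hc : ∀ i, 0 ≤ c i) (hu : ∀ i, ‖u i‖ ≤ 1)
    (hiso : ∀ w : EuclideanSpace ℝ (Fin d), ∑ i, c i * ⟪u i, w⟫ ^ 2 = ‖w‖ ^ 2)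
    (f : Fin d → I) (hcen : ∑ i, c i • u i = -∑ j, u (f j))
    (x : EuclideanSpace ℝ (Fin d)) (hx : ∀ i, ⟪u i, x⟫ < 1) (j : Fin d) (k : I) :
    ∑ i, c i * Real.log (1 - ⟪u i, x⟫) + ∑ l, Real.log (1 - ⟪u (Function.update f j k l), x⟫)
      ≤ Real.log (14 / 3) := by
  classical
  have hR := norm_nonneg x
  have hz : ∀ i, |⟪u i, x⟫| ≤ ‖x‖ := by
    intro i
    refine (abs_real_inner_le_norm _ _).trans ?_
    exact mul_le_of_le_one_left hR (hu i)
  -- first sum
  have h1 : ∑ i, c i * Real.log (1 - ⟪u i, x⟫) ≤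
      -(∑ i, c i * ⟪u i, x⟫) - ‖x‖ ^ 2 / (2 * (1 + ‖x‖)) := by
    rw [← hiso x, Finset.sum_div, ← Finset.sum_neg_distrib, ← Finset.sum_sub_distrib]
    refine Finset.sum_le_sum fun i _ => ?_
    have a1 := log_aux (hx i)
    have a2 : ⟪u i, x⟫ ^ 2 / (2 * (1 + ‖x‖)) ≤ ⟪u i, x⟫ ^ 2 / (2 * (1 + |⟪u i, x⟫|)) := by
      apply div_le_div_of_nonneg_left (sq_nonneg _) (by positivity)
      have := hz i
      linarith
    have a3 : Real.log (1 - ⟪u i, x⟫) ≤ -⟪u i, x⟫ - ⟪u i, x⟫ ^ 2 / (2 * (1 + ‖x‖)) := by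
      linarith
    calc c i * Real.log (1 - ⟪u i, x⟫)
        ≤ c i * (-⟪u i, x⟫ - ⟪u i, x⟫ ^ 2 / (2 * (1 + ‖x‖))) :=
          mul_le_mul_of_nonneg_left a3 (hc i)
      _ = -(c i * ⟪u i, x⟫) - c i * ⟪u i, x⟫ ^ 2 / (2 * (1 + ‖x‖)) := by ring
  have h2 : ∑ i, c i * ⟪u i, x⟫ = -∑ l, ⟪u (f l), x⟫ := by
    have := congrArg (fun v => ⟪v, x⟫) hcen
    simp only [sum_inner, real_inner_smul_left, inner_neg_left] at this
    exact this
  -- second sum
  have h3 : ∑ l, Real.log (1 - ⟪u (Function.update f j k l), x⟫) ≤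
      Real.log (1 + ‖x‖) - ∑ l ∈ Finset.univ.erase j, ⟪u (f l), x⟫ := by
    rw [← Finset.add_sum_erase Finset.univ _ (Finset.mem_univ j), Function.update_self,
      sub_eq_add_neg (Real.log (1 + ‖x‖)), ← Finset.sum_neg_distrib]
    refine add_le_add ?_ (Finset.sum_le_sum fun l hl => ?_)
    · apply Real.log_le_log (by linarith [hx k])
      have := neg_abs_le ⟪u k, x⟫
      have := hz k
      linarith
    · rw [Function.update_of_ne (Finset.ne_of_mem_erase hl)]
      have := Real.log_le_sub_one_of_pos (show (0 : ℝ) < 1 - ⟪u (f l), x⟫ by linarith [hx (f l)])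
      linarith
  have h4 : ∑ l, ⟪u (f l), x⟫ = ⟪u (f j), x⟫ + ∑ l ∈ Finset.univ.erase j, ⟪u (f l), x⟫ :=
    (Finset.add_sum_erase Finset.univ _ (Finset.mem_univ j)).symm
  have h5 := final_num hR
  have h6 := hx (f j)
  linarith

end Pool.Agent.Helper50.QH
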